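import Pool.Agent.Lib.MP_04668c_co.E.Base

/-!
# Module YSUM: the sum over the rules (Y)
-/

set_option autoImplicit false
set_option linter.unusedSectionVars false

namespace Pool.Agent.Lib.MP_04668c_co.E.H97

open Finset Classical Module
open Pool.Agent.Lib.MP_04668c_co Pool.Agent.Lib.MP_04668c_co.E

theorem ysum : YsumStatement := by
  intro V X _ _ B b δ L' hBb hδ y hy0 hy x
  have hZ1 : (1 : ℝ) ≤ (Zy b δ : ℝ) := by
    have : 1 ≤ Zy b δ := by
      unfold Zy
      have h1 : 1 ≤ 2 ^ (b + 2) := Nat.one_le_two_pow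
      have h2 : 1 ≤ 2 ^ (1 + δ) := Nat.one_le_two_pow
      have h3 : 1 ≤ 2 ^ (b + 2) * 2 ^ (1 + δ) := Nat.mul_pos h1 h2
      omega
    exact_mod_cast this
  have hz0 : (0 : ℝ) ≤ 1 / (Zy b δ : ℝ) := by positivity
  have hz1 : 1 / (Zy b δ : ℝ) ≤ 1 := by
    rw [div_le_one (by linarith)]; exact hZ1
  set S := (univ : Finset (Finset V × Finset X × Finset X)).filter
      (fun i => x ∈ KZ B i.1 ∧ Conn (adjB B) (KZ B i.1) ∧ (∀ v ∈ i.1, ∃ z, v ∈ B z) ∧
        i.2.1 ⊆ KZ B i.1 ∧ i.2.2 ⊆ KZ B i.1 ∧ (KZ B i.1).card ≤ 2 * L' * i.2.2.card) with hS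
  set 𝒦 : Finset (Finset X) := univ.filter (fun K : Finset X => x ∈ K ∧ Conn (adjB B) K) with h𝒦
  have step1 : ∀ i ∈ S, y ^ i.2.2.card ≤ (1 / (Zy b δ : ℝ)) ^ (KZ B i.1).card * (1 / 2) := by
    intro i hi
    rw [hS, mem_filter] at hi
    obtain ⟨-, h1, -, -, -, -, h6⟩ := hi
    have hK1 : 1 ≤ (KZ B i.1).card := Finset.card_pos.mpr ⟨x, h1⟩
    have hD1 : 1 ≤ i.2.2.card := by
      by_contra h0
      have h0' : i.2.2.card = 0 := by omega
      rw [h0', mul_zero] at h6
      omega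
    calc y ^ i.2.2.card ≤ ((1 / (Zy b δ : ℝ)) ^ (2 * L') / 2) ^ i.2.2.card :=
          pow_le_pow_left₀ hy0 hy _
      _ = (1 / (Zy b δ : ℝ)) ^ (2 * L' * i.2.2.card) * (1 / 2) ^ i.2.2.card := by
          rw [div_eq_mul_one_div, mul_pow, ← pow_mul]
      _ ≤ (1 / (Zy b δ : ℝ)) ^ (KZ B i.1).card * (1 / 2) := by
          have e1 := pow_le_pow_of_le_one hz0 hz1 h6
          have e2 : (1 / 2 : ℝ) ^ i.2.2.card ≤ (1 / 2) ^ 1 :=
            pow_le_pow_of_le_one (by norm_num) (by norm_num) hD1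
          rw [pow_one] at e2
          exact mul_le_mul e1 e2 (by positivity) (by positivity)
  have hmaps : ∀ i ∈ S, KZ B i.1 ∈ 𝒦 := by
    intro i hi
    rw [hS, mem_filter] at hi
    rw [h𝒦, mem_filter]
    exact ⟨mem_univ _, hi.2.1, hi.2.2.1⟩
  refine (Finset.sum_le_sum step1).trans ?_
  rw [← Finset.sum_fiberwise_of_maps_to hmaps]
  have step2 : ∀ K ∈ 𝒦, ∑ i ∈ S.filter (fun i => KZ B i.1 = K),
      (1 / (Zy b δ : ℝ)) ^ (KZ B i.1).card * (1 / 2) ≤
      (1 / 4) * (1 / 2 : ℝ) ^ ((1 + δ) * K.card) := by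
    intro K hK
    rw [h𝒦, mem_filter] at hK
    have hk1 : 1 ≤ K.card := Finset.card_pos.mpr ⟨x, hK.2.1⟩
    have hconst : ∑ i ∈ S.filter (fun i => KZ B i.1 = K),
        (1 / (Zy b δ : ℝ)) ^ (KZ B i.1).card * (1 / 2) =
        ((S.filter (fun i => KZ B i.1 = K)).card : ℝ) * ((1 / (Zy b δ : ℝ)) ^ K.card * (1 / 2)) := by
      rw [← nsmul_eq_mul, ← Finset.sum_const]
      refine Finset.sum_congr rfl (fun i hi => ?_)
      rw [(Finset.mem_filter.mp hi).2]
    have hcard : (S.filter (fun i => KZ B i.1 = K)).card ≤ (2 ^ (b + 2)) ^ K.card := by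
      have hvs : (vs B K).card ≤ b * K.card := by
        rw [mul_comm]
        exact Finset.card_biUnion_le_card_mul _ _ _ (fun x _ => hBb x)
      have hprod : ((vs B K).powerset ×ˢ (K.powerset ×ˢ K.powerset)).card =
          2 ^ (vs B K).card * (2 ^ K.card * 2 ^ K.card) := by
        simp [Finset.card_product, Finset.card_powerset]
      have hle : 2 ^ (vs B K).card * (2 ^ K.card * 2 ^ K.card) ≤ (2 ^ (b + 2)) ^ K.card := by
        rw [← pow_add, ← pow_add, ← pow_mul]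
        refine Nat.pow_le_pow_right (by norm_num) ?_
        have : (b + 2) * K.card = b * K.card + (K.card + K.card) := by ring
        omega
      refine le_trans ?_ hle
      rw [← hprod]
      refine Finset.card_le_card ?_
      rintro ⟨Z, N, D⟩ hi
      rw [mem_filter, hS, mem_filter] at hi
      obtain ⟨⟨-, -, -, h3, h4, h5, -⟩, h7⟩ := hi
      simp only at h3 h4 h5 h7
      rw [mem_product, mem_product, Finset.mem_powerset, Finset.mem_powerset,
        Finset.mem_powerset]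
      refine ⟨?_, by rw [← h7]; exact h4, by rw [← h7]; exact h5⟩
      intro v hv
      obtain ⟨z, hz⟩ := h3 v hv
      rw [vs, mem_biUnion]
      refine ⟨z, ?_, hz⟩
      rw [← h7, KZ, mem_filter]
      exact ⟨mem_univ _, v, hz, hv⟩
    rw [hconst]
    have hZeq : (Zy b δ : ℝ) = 2 ^ (b + 2) * (2 ^ (1 + δ) * 2) := by
      unfold Zy; push_cast; ring
    have hb0 : (0 : ℝ) < 2 ^ (b + 2) := by positivity
    calc ((S.filter (fun i => KZ B i.1 = K)).card : ℝ) * ((1 / (Zy b δ : ℝ)) ^ K.card * (1 / 2))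
        ≤ ((2 ^ (b + 2)) ^ K.card) * ((1 / (Zy b δ : ℝ)) ^ K.card * (1 / 2)) := by
          refine mul_le_mul_of_nonneg_right ?_ (by positivity)
          exact_mod_cast hcard
      _ = (1 / (2 ^ (1 + δ) * 2) : ℝ) ^ K.card * (1 / 2) := by
          rw [← mul_assoc, ← mul_pow, hZeq]
          congr 2
          field_simp
      _ = (1 / 2 : ℝ) ^ K.card * (1 / 2 : ℝ) ^ ((1 + δ) * K.card) * (1 / 2) := by
          congr 1
          rw [pow_mul, ← mul_pow]
          congr 1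
          rw [one_div, one_div, mul_inv, inv_pow]
          ring
      _ ≤ (1 / 2) * (1 / 2 : ℝ) ^ ((1 + δ) * K.card) * (1 / 2) := by
          refine mul_le_mul_of_nonneg_right ?_ (by norm_num)
          refine mul_le_mul_of_nonneg_right ?_ (by positivity)
          calc (1 / 2 : ℝ) ^ K.card ≤ (1 / 2 : ℝ) ^ 1 :=
                pow_le_pow_of_le_one (by norm_num) (by norm_num) hk1
            _ = 1 / 2 := by norm_num
      _ = (1 / 4) * (1 / 2 : ℝ) ^ ((1 + δ) * K.card) := by ring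
  refine (Finset.sum_le_sum step2).trans ?_
  rw [← Finset.mul_sum]
  have := sum_conn (adjB B) δ hδ x
  linarith

end Pool.Agent.Lib.MP_04668c_co.E.H97
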